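import Pool.Agent.W763.PB.Stm

/-! PB-CORE: the core block from the level system. -/

set_option autoImplicit false
set_option linter.unusedSectionVars false
open MeasureTheory Filter Topology
open scoped InnerProductSpace BoundedContinuousFunction
open Pool.Agent.W763.PB

namespace Pool.Agent.W683.PB

theorem core_num (N : ℝ) : N < 1 / 2 * Real.sqrt ((4 * (|N| + 1) ^ 2 + 2) - 1) := by
  have h0 : 0 ≤ |N| := abs_nonneg N
  have h1 : (2 * (|N| + 1)) ≤ Real.sqrt ((4 * (|N| + 1) ^ 2 + 2) - 1) := by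
    apply Real.le_sqrt_of_sq_le
    nlinarith
  have h2 : N ≤ |N| := le_abs_self N
  linarith

theorem core : S_SYS → S_Y2 → S_Y3 → S_Y4 → S_CORE := by
  intro hSYS hY2 hY3 hY4 N
  have hk : (2 : ℝ) ≤ 4 * (|N| + 1) ^ 2 + 2 := by
    have : 0 ≤ 4 * (|N| + 1) ^ 2 := by positivity
    linarith
  have hb : 16 * (4 * (|N| + 1) ^ 2 + 2) ^ 2 ≤
      ((⌈16 * (4 * (|N| + 1) ^ 2 + 2) ^ 2⌉₊ : ℕ) : ℝ) := Nat.le_ceil _
  obtain ⟨H, i1, i2, i3, U, D, J, E, j1, j2, j3, i, UE, DE, hS⟩ := hSYS _ _ hk hb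
  refine ⟨E, j1, j2, j3, UE, DE, hS.dlo, ?_, ?_, ?_⟩
  · exact hY2 _ _ H U D J E i UE DE hS
  · obtain ⟨x, hx, hx2⟩ := hY3 _ _ H U D J E i UE DE hS
    refine ⟨x, lt_of_lt_of_le ?_ hx2⟩
    have h1 : 0 < ‖DE x‖ := lt_of_lt_of_le (norm_pos_iff.mpr hx) (hS.dlo x)
    exact mul_lt_mul_of_pos_right (core_num N) h1
  · exact hY4 _ _ H U D J E i UE DE hS

end Pool.Agent.W683.PB
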